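import Pool.Agent.H857.EF.Core3

/-! S33: the reducible members of the family are rare. -/

set_option autoImplicit false

namespace Pool.Agent.H721.EF

open Polynomial Pool.Agent.W521.Descent Pool.Agent.W521.Density Pool.Agent.H857.EF

/-- a bound for the roots of a quartic -/
lemma norm_le_of_quartic {z : ℂ} {a3 a2 a1 a0 R : ℝ} (hR : 0 < R)
    (h : z ^ 4 = a3 * z ^ 3 + a2 * z ^ 2 + a1 * z + a0) (h3 : |a3| ≤ R) (h2 : |a2| ≤ 4 * R ^ 2)
    (h1 : |a1| ≤ R ^ 3) (h0 : |a0| ≤ 4 * R ^ 4) : ‖z‖ ≤ 3 * R := by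
  by_contra hcon
  push Not at hcon
  set y := ‖z‖ with hy
  have hn : y ^ 4 ≤ R * y ^ 3 + 4 * R ^ 2 * y ^ 2 + R ^ 3 * y + 4 * R ^ 4 := by
    have e : y ^ 4 = ‖z ^ 4‖ := by rw [norm_pow]
    rw [e, h]
    have t1 : ‖(a3 : ℂ) * z ^ 3‖ ≤ R * y ^ 3 := by
      rw [norm_mul, norm_pow, Complex.norm_real, Real.norm_eq_abs]
      exact mul_le_mul_of_nonneg_right h3 (by positivity)
    have t2 : ‖(a2 : ℂ) * z ^ 2‖ ≤ 4 * R ^ 2 * y ^ 2 := by
      rw [norm_mul, norm_pow, Complex.norm_real, Real.norm_eq_abs]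
      exact mul_le_mul_of_nonneg_right h2 (by positivity)
    have t3 : ‖(a1 : ℂ) * z‖ ≤ R ^ 3 * y := by
      rw [norm_mul, Complex.norm_real, Real.norm_eq_abs]
      exact mul_le_mul_of_nonneg_right h1 (by positivity)
    have t4 : ‖(a0 : ℂ)‖ ≤ 4 * R ^ 4 := by
      rw [Complex.norm_real, Real.norm_eq_abs]
      exact h0
    refine (norm_add_le _ _).trans (add_le_add ((norm_add_le _ _).trans (add_le_add
      ((norm_add_le _ _).trans (add_le_add t1 t2)) t3)) t4)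
  have hy0 : 0 < y := by linarith
  have hRy : R ≤ y / 3 := by linarith
  have k1 : R * y ^ 3 ≤ y / 3 * y ^ 3 := mul_le_mul_of_nonneg_right hRy (by positivity)
  have k2 : R ^ 2 ≤ (y / 3) ^ 2 := pow_le_pow_left₀ hR.le hRy 2
  have k3 : R ^ 3 ≤ (y / 3) ^ 3 := pow_le_pow_left₀ hR.le hRy 3
  have k4 : R ^ 4 ≤ (y / 3) ^ 4 := pow_le_pow_left₀ hR.le hRy 4
  have k2' : R ^ 2 * y ^ 2 ≤ (y / 3) ^ 2 * y ^ 2 := mul_le_mul_of_nonneg_right k2 (by positivity)
  have k3' : R ^ 3 * y ≤ (y / 3) ^ 3 * y := mul_le_mul_of_nonneg_right k3 (by positivity)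
  have hy4 : 0 < y ^ 4 := by positivity
  nlinarith [k1, k2', k3', k4, hn, hy4]

lemma aeval_cf {R : Type} [CommRing R] (q : ℕ) (A n t : ℤ) (z : R) :
    aeval z (mkPoly 4 (cf q A n t)) = z ^ 4 + ((((t - 2 * q) ^ 2 + q * (A ^ 2 - 4 * n) : ℤ) : R) +
      ((-(A * (t - 2 * q)) : ℤ) : R) * z + ((2 * (t - 2 * q) + n : ℤ) : R) * z ^ 2 +
      ((-A : ℤ) : R) * z ^ 3) := by
  unfold mkPoly
  simp only [Fin.sum_univ_four, map_add (aeval z), map_mul (aeval z), map_pow (aeval z), aeval_X,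
    aeval_C]
  have c0 : cf q A n t 0 = (t - 2 * q) ^ 2 + q * (A ^ 2 - 4 * n) := rfl
  have c1 : cf q A n t 1 = -(A * (t - 2 * q)) := rfl
  have c2 : cf q A n t 2 = 2 * (t - 2 * q) + n := rfl
  have c3 : cf q A n t 3 = -A := rfl
  rw [c0, c1, c2, c3]
  simp only [eq_intCast (algebraMap ℤ R)]
  have v0 : ((0 : Fin 4) : ℕ) = 0 := rfl
  have v1 : ((1 : Fin 4) : ℕ) = 1 := rfl
  have v2 : ((2 : Fin 4) : ℕ) = 2 := rfl
  have v3 : ((3 : Fin 4) : ℕ) = 3 := rfl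
  rw [v0, v1, v2, v3, pow_zero, mul_one, pow_one]

/-- the real bounds -/
lemma root_le {q : ℕ} (hq : 0 < q) {A n t : ℤ} (hP : Par q A n t) {z : ℂ}
    (hz : aeval z (mkPoly 4 (cf q A n t)) = 0) : ‖z‖ ≤ 3 * Real.sqrt q := by
  obtain ⟨p1, p2, p3, p4, p5, p6⟩ := hP
  have hq' : (0 : ℝ) < q := by exact_mod_cast hq
  obtain ⟨R, hR⟩ : ∃ R, R = Real.sqrt q := ⟨_, rfl⟩
  have hR0 : 0 < R := by
    rw [hR]
    exact Real.sqrt_pos.2 hq'
  have hR2 : R ^ 2 = q := by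
    rw [hR]
    exact Real.sq_sqrt hq'.le
  rw [← hR]
  have r1 : (1 : ℝ) ≤ A := by exact_mod_cast p1
  have r2 : 64 * (A : ℝ) ^ 2 ≤ q := by exact_mod_cast p2
  have r3 : (q : ℝ) < 32 * n := by exact_mod_cast p3
  have r4 : 16 * (n : ℝ) ≤ q := by exact_mod_cast p4
  have r5 : (1 : ℝ) ≤ t := by exact_mod_cast p5
  have r6 : 2 * (t : ℝ) ≤ q := by exact_mod_cast p6
  have hA : |(A : ℝ)| ≤ R / 8 := by
    rw [abs_of_nonneg (by linarith)]
    by_contra hcon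
    push Not at hcon
    nlinarith
  rw [aeval_cf] at hz
  refine norm_le_of_quartic (a3 := A) (a2 := -(2 * (t - 2 * q) + n)) (a1 := A * (t - 2 * q))
    (a0 := -((t - 2 * q) ^ 2 + q * (A ^ 2 - 4 * n))) hR0 ?_ ?_ ?_ ?_ ?_
  · push_cast at hz ⊢
    linear_combination hz
  · linarith
  · rw [hR2, abs_le]
    constructor <;> linarith
  · rw [abs_mul]
    have h1 : |(t : ℝ) - 2 * q| ≤ 2 * R ^ 2 := by
      rw [hR2, abs_le]
      constructor <;> linarith
    calc |(A : ℝ)| * |(t : ℝ) - 2 * q| ≤ (R / 8) * (2 * R ^ 2) :=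
          mul_le_mul hA h1 (abs_nonneg _) (by positivity)
      _ ≤ R ^ 3 := by nlinarith [pow_pos hR0 3]
  · have e : R ^ 4 = (q : ℝ) ^ 2 := by
      rw [← hR2]
      ring
    have e1 : (q : ℝ) * (A : ℝ) ^ 2 ≤ q * (q / 64) :=
      mul_le_mul_of_nonneg_left (by linarith) hq'.le
    have e2 : (q : ℝ) * n ≤ q * (q / 16) := mul_le_mul_of_nonneg_left (by linarith) hq'.le
    have e3 : (q : ℝ) * (q / 32) ≤ q * n := mul_le_mul_of_nonneg_left (by linarith) hq'.le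
    have e4 : ((t : ℝ) - 2 * q) ^ 2 ≤ (2 * q) ^ 2 := by
      rw [sq_le_sq, abs_of_nonneg (show (0 : ℝ) ≤ 2 * q by linarith), abs_le]
      constructor <;> linarith
    have e5 : 0 ≤ (q : ℝ) * (A : ℝ) ^ 2 := by positivity
    have e6 := sq_nonneg ((t : ℝ) - 2 * q)
    rw [e, abs_neg, abs_le]
    constructor <;> nlinarith

/-- the bounds for the coefficients of the factors -/
lemma coeff_le {q : ℕ} (hq : 0 < q) {A n t : ℤ} (hP : Par q A n t) {g f : ℤ[X]} (hg : g.Monic)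
    (h : f * g = mkPoly 4 (cf q A n t)) (k : ℕ) :
    |(g.coeff k : ℝ)| ≤ (3 * Real.sqrt q) ^ (g.natDegree - k) * g.natDegree.choose k := by
  have h1 := coeff_le_of_roots_le (f := algebraMap ℤ ℂ) (p := g) k hg (IsAlgClosed.splits _)
    (B := 3 * Real.sqrt q) (fun z hz => root_le hq hP (by
      have h1 := (mem_roots'.1 hz).2
      rw [IsRoot.def, eval_map] at h1
      have h2 : aeval z g = 0 := h1
      rw [← h, map_mul, h2, mul_zero]))
  rw [coeff_map, eq_intCast (algebraMap ℤ ℂ), Complex.norm_intCast] at h1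
  exact h1

lemma deg_two {g : ℤ[X]} (hg : g.Monic) (hd : g.natDegree = 2) :
    g = X ^ 2 + (C (g.coeff 0) + C (g.coeff 1) * X) := by
  have h := eq_mkPoly hg hd
  unfold mkPoly at h
  rw [Fin.sum_univ_two] at h
  conv_lhs => rw [← h]
  simp

lemma deg_one {g : ℤ[X]} (hg : g.Monic) (hd : g.natDegree = 1) :
    g = X + C (g.coeff 0) := by
  have h := eq_mkPoly hg hd
  unfold mkPoly at h
  rw [Fin.sum_univ_one] at h
  conv_lhs => rw [← h]
  simp

/-- the two cases -/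
lemma cases_of {q : ℕ} (hq : 0 < q) {A n t : ℤ} (hP : Par q A n t)
    (hi : ¬ Irreducible (mkPoly 4 (cf q A n t))) :
    (∃ s : ℤ, |(s : ℝ)| ≤ 3 * Real.sqrt q ∧ s ^ 4 + (((t - 2 * q) ^ 2 + q * (A ^ 2 - 4 * n)) +
      (-(A * (t - 2 * q))) * s + (2 * (t - 2 * q) + n) * s ^ 2 + (-A) * s ^ 3) = 0) ∨
    ∃ g1 f1 g0 f0 : ℤ, |(g1 : ℝ)| ≤ 6 * Real.sqrt q ∧ |(f1 : ℝ)| ≤ 6 * Real.sqrt q ∧
      |(g0 : ℝ)| ≤ 9 * q ∧ g1 ≠ 0 ∧ f1 + g1 = -A ∧ f0 + g0 + f1 * g1 = 2 * (t - 2 * q) + n ∧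
      f1 * g0 + f0 * g1 = -(A * (t - 2 * q)) ∧
      f0 * g0 = (t - 2 * q) ^ 2 + q * (A ^ 2 - 4 * n) := by
  have hm : (mkPoly 4 (cf q A n t)).Monic := mkPoly_monic _ _
  have hd : (mkPoly 4 (cf q A n t)).natDegree = 4 := mkPoly_natDegree _ _
  have h1 : mkPoly 4 (cf q A n t) ≠ 1 := by
    intro h
    rw [h, natDegree_one] at hd
    omega
  rw [hm.irreducible_iff_natDegree'] at hi
  push Not at hi
  obtain ⟨f, g, hf, hg, hfg, hmem⟩ := hi h1
  rw [hd] at hmem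
  have hmem' := Finset.mem_Ioc.1 hmem
  have hdeg : f.natDegree + g.natDegree = 4 := by
    rw [← hf.natDegree_mul hg, hfg, hd]
  have hq' : (0 : ℝ) < q := by exact_mod_cast hq
  rcases (show g.natDegree = 1 ∨ g.natDegree = 2 by omega) with h2 | h2
  · left
    have h3 := deg_one hg h2
    refine ⟨-g.coeff 0, ?_, ?_⟩
    · have h4 := coeff_le hq hP hg hfg 0
      rw [h2] at h4
      push_cast
      rw [abs_neg]
      simpa using h4
    · have h4 := aeval_cf q A n t (-g.coeff 0)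
      rw [← hfg, map_mul] at h4
      have h5 : aeval (-g.coeff 0) g = 0 := by
        rw [h3]
        simp
      rw [h5, mul_zero] at h4
      simpa using h4.symm
  · right
    have hf2 : f.natDegree = 2 := by omega
    have hgf : g * f = mkPoly 4 (cf q A n t) := by rw [mul_comm, hfg]
    have cg := coeff_le hq hP hg hfg
    have cf' := coeff_le hq hP hf hgf
    rw [h2] at cg
    rw [hf2] at cf'
    have hs : (3 * Real.sqrt q) ^ 2 = 9 * q := by
      rw [mul_pow, Real.sq_sqrt hq'.le]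
      norm_num
    have e1 : |(g.coeff 1 : ℝ)| ≤ 6 * Real.sqrt q := by
      have := cg 1
      norm_num at this
      linarith
    have e2 : |(f.coeff 1 : ℝ)| ≤ 6 * Real.sqrt q := by
      have := cf' 1
      norm_num at this
      linarith
    have e3 : |(g.coeff 0 : ℝ)| ≤ 9 * q := by
      have := cg 0
      rw [Nat.sub_zero, hs, Nat.choose_zero_right] at this
      simpa using this
    have e4 : |(f.coeff 0 : ℝ)| ≤ 9 * q := by
      have := cf' 0
      rw [Nat.sub_zero, hs, Nat.choose_zero_right] at this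
      simpa using this
    -- the equations
    have hv : mkPoly 4 ![f.coeff 0 * g.coeff 0, f.coeff 1 * g.coeff 0 + f.coeff 0 * g.coeff 1,
        f.coeff 0 + g.coeff 0 + f.coeff 1 * g.coeff 1, f.coeff 1 + g.coeff 1] =
        mkPoly 4 (cf q A n t) := by
      rw [← hfg]
      conv_rhs => rw [deg_two hg h2, deg_two hf hf2]
      unfold mkPoly
      simp [Fin.sum_univ_succ]
      ring
    have hv' := mkPoly_injective 4 hv
    have v0 := congrFun hv' 0
    have v1 := congrFun hv' 1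
    have v2 := congrFun hv' 2
    have v3 := congrFun hv' 3
    have w0 : f.coeff 0 * g.coeff 0 = (t - 2 * q) ^ 2 + q * (A ^ 2 - 4 * n) := v0
    have w1 : f.coeff 1 * g.coeff 0 + f.coeff 0 * g.coeff 1 = -(A * (t - 2 * q)) := v1
    have w2 : f.coeff 0 + g.coeff 0 + f.coeff 1 * g.coeff 1 = 2 * (t - 2 * q) + n := v2
    have w3 : f.coeff 1 + g.coeff 1 = -A := v3
    by_cases hz : g.coeff 1 = 0
    · refine ⟨f.coeff 1, g.coeff 1, f.coeff 0, g.coeff 0, e2, e1, e4, ?_, by linarith,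
        by linarith, by linarith, by linarith⟩
      intro hz'
      have := hP.1
      omega
    · exact ⟨g.coeff 1, f.coeff 1, g.coeff 0, f.coeff 0, e1, e2, e3, hz, w3, w2, w1, w0⟩

/-- counting with an injective map -/
lemma count_one {α β : Type} {S : Set α} {φ : α → β} {B : Finset β} (hB : ∀ x ∈ S, φ x ∈ B)
    (hi : Set.InjOn φ S) : S.ncard ≤ B.card := by
  have h := Set.ncard_le_ncard_of_injOn φ (t := (B : Set β)) hB hi B.finite_toSet
  rwa [Set.ncard_coe_finset] at h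

/-- counting with a map with at most two elements in the fibres -/
lemma count_two {α β : Type} {S : Set α} (hS : S.Finite) {φ : α → β} {B : Finset β}
    (hB : ∀ x ∈ S, φ x ∈ B) (h3 : ∀ x ∈ S, ∀ y ∈ S, ∀ z ∈ S, φ x = φ y → φ x = φ z →
      x = y ∨ x = z ∨ y = z) : S.ncard ≤ 2 * B.card := by
  classical
  rw [Set.ncard_eq_toFinset_card S hS]
  refine Finset.card_le_mul_card_image_of_maps_to (f := φ) (t := B) ?_ 2 ?_
  · intro a ha
    exact hB a (hS.mem_toFinset.1 ha)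
  · intro b _
    by_contra hcon
    push Not at hcon
    obtain ⟨x, hx, y, hy, z, hz, h1, h2, h4⟩ := Finset.two_lt_card.1 hcon
    rw [Finset.mem_filter, hS.mem_toFinset] at hx hy hz
    rcases h3 x hx.1 y hy.1 z hz.1 (hx.2.trans hy.2.symm) (hx.2.trans hz.2.symm) with h | h | h
    · exact h1 h
    · exact h2 h
    · exact h4 h

/-- the set of the parameters is finite -/
lemma par_finite (q : ℕ) : {x : ℤ × ℤ × ℤ | Par q x.1 x.2.1 x.2.2}.Finite := by
  refine Set.Finite.subset ((Finset.Icc (1 : ℤ) q) ×ˢ ((Finset.Icc (0 : ℤ) q) ×ˢ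
    (Finset.Icc (1 : ℤ) q))).finite_toSet ?_
  rintro ⟨A, n, t⟩ ⟨p1, p2, p3, p4, p5, p6⟩
  dsimp only at p1 p2 p3 p4 p5 p6
  simp only [Finset.coe_product, Finset.coe_Icc, Set.mem_prod, Set.mem_Icc]
  refine ⟨⟨p1, by nlinarith⟩, ⟨by omega, by omega⟩, p5, by omega⟩

/-- the linear equation -/
lemma sq_ne {q : ℕ} (hq : 0 < q) {A n t s : ℤ} (hP : Par q A n t)
    (h : s ^ 4 + (((t - 2 * q) ^ 2 + q * (A ^ 2 - 4 * n)) +
      (-(A * (t - 2 * q))) * s + (2 * (t - 2 * q) + n) * s ^ 2 + (-A) * s ^ 3) = 0) :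
    s ^ 2 - 4 * q ≠ 0 := by
  intro hs
  obtain ⟨p1, p2, p3, p4, p5, p6⟩ := hP
  have hq' : (0 : ℤ) < q := by exact_mod_cast hq
  have h1 : (2 * s ^ 2 - A * s + 2 * (t - 2 * q)) ^ 2 = 0 := by
    linear_combination 4 * h - (4 * n - A ^ 2) * hs
  have h2 : 2 * s ^ 2 - A * s + 2 * (t - 2 * q) = 0 := pow_eq_zero_iff two_ne_zero |>.1 h1
  have h3 : A * s = 4 * q + 2 * t := by linear_combination -h2 + 2 * hs
  have h4 : A ^ 2 * (4 * q) = (4 * q + 2 * t) ^ 2 := by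
    rw [← h3]
    linear_combination -A ^ 2 * hs
  nlinarith

lemma three_roots {a b c x y z : ℤ} (hx : a * x ^ 2 + b * x + c = 0)
    (hy : a * y ^ 2 + b * y + c = 0) (hz : a * z ^ 2 + b * z + c = 0) (ha : a ≠ 0) :
    x = y ∨ x = z ∨ y = z := by
  by_contra hcon
  push Not at hcon
  obtain ⟨h1, h2, h3⟩ := hcon
  have e1 : (x - y) * (a * (x + y) + b) = 0 := by linear_combination hx - hy
  have e2 : (x - z) * (a * (x + z) + b) = 0 := by linear_combination hx - hz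
  have e3 := (mul_eq_zero.1 e1).resolve_left (sub_ne_zero.2 h1)
  have e4 := (mul_eq_zero.1 e2).resolve_left (sub_ne_zero.2 h2)
  have e5 : a * (y - z) = 0 := by linear_combination e3 - e4
  rcases mul_eq_zero.1 e5 with h | h
  · exact ha h
  · exact h3 (sub_eq_zero.1 h)

/-- an integer bound -/
lemma int_bd {m : ℤ} {c : ℝ} {K : ℕ} (h : |(m : ℝ)| ≤ c) (hc : c ≤ K) :
    -(K : ℤ) ≤ m ∧ m ≤ K := by
  have h1 := abs_le.1 (h.trans hc)
  exact ⟨by exact_mod_cast h1.1, by exact_mod_cast h1.2⟩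

lemma card_sym (K : ℕ) : (Finset.Icc (-(K : ℤ)) K).card = 2 * K + 1 := by
  rw [Int.card_Icc]
  omega

lemma card_pos' (K : ℕ) : (Finset.Icc (1 : ℤ) K).card = K := by
  rw [Int.card_Icc]
  omega

/-- the equation for a linear factor -/
def E1 (q : ℕ) (A n t s : ℤ) : Prop := s ^ 4 + (((t - 2 * q) ^ 2 + q * (A ^ 2 - 4 * n)) +
  (-(A * (t - 2 * q))) * s + (2 * (t - 2 * q) + n) * s ^ 2 + (-A) * s ^ 3) = 0

/-- the equations for a quadratic factor -/
def E2 (q : ℕ) (A n t g1 f1 g0 f0 : ℤ) : Prop := g1 ≠ 0 ∧ f1 + g1 = -A ∧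
  f0 + g0 + f1 * g1 = 2 * (t - 2 * q) + n ∧ f1 * g0 + f0 * g1 = -(A * (t - 2 * q)) ∧
  f0 * g0 = (t - 2 * q) ^ 2 + q * (A ^ 2 - 4 * n)

lemma E2.quad {q : ℕ} {A n t g1 f1 g0 f0 : ℤ} (h : E2 q A n t g1 f1 g0 f0) :
    g1 ^ 2 * f0 ^ 2 + (2 * f1 * g0 * g1 - 4 * q * (f1 + g1) ^ 2 + 8 * q * (f1 + g1) * g1 -
      (f1 + g1) ^ 2 * g0) * f0 + (f1 ^ 2 * g0 ^ 2 + q * (f1 + g1) ^ 2 * ((f1 + g1) ^ 2 -
      4 * g0 - 4 * f1 * g1) + 8 * q * (f1 + g1) * f1 * g0) = 0 := by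
  obtain ⟨h0, h1, h2, h3, h4⟩ := h
  have hA : A = -(f1 + g1) := by linarith
  subst hA
  obtain ⟨u, hu⟩ : ∃ u : ℤ, u = t - 2 * q := ⟨_, rfl⟩
  rw [← hu] at h2 h3 h4
  have hn : n = f0 + g0 + f1 * g1 - 2 * u := by linarith
  subst hn
  have h5 : f1 * g0 + f0 * g1 = (f1 + g1) * u := by linear_combination h3
  have h6 : (f1 + g1) ^ 2 * (f0 * g0) = (f1 * g0 + f0 * g1) ^ 2 + q * (f1 + g1) ^ 2 *
      ((f1 + g1) ^ 2 - 4 * (f0 + g0 + f1 * g1)) + 8 * q * (f1 + g1) * (f1 * g0 + f0 * g1) := by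
    rw [h4, h5]
    ring
  linear_combination -h6

lemma E2.det {q : ℕ} {A n t A' n' t' g1 f1 g0 f0 : ℤ} (hA : A ≠ 0)
    (h : E2 q A n t g1 f1 g0 f0) (h' : E2 q A' n' t' g1 f1 g0 f0) :
    (A, n, t) = (A', n', t') := by
  obtain ⟨h0, h1, h2, h3, h4⟩ := h
  obtain ⟨h0', h1', h2', h3', h4'⟩ := h'
  have e1 : A = A' := by linarith
  subst e1
  have e2 : A * (t - t') = 0 := by linear_combination h3 - h3'
  have e3 : t = t' := sub_eq_zero.1 ((mul_eq_zero.1 e2).resolve_left hA)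
  subst e3
  have e4 : n = n' := by linarith
  subst e4
  rfl

/-- S33. -/
theorem s33 : S33 := by
  refine ⟨24000, by norm_num, fun q hq => ?_⟩
  have hq' : (0 : ℝ) < q := by exact_mod_cast hq
  obtain ⟨k, hk⟩ : ∃ k : ℕ, k = Nat.sqrt q := ⟨_, rfl⟩
  have hk1 : k * k ≤ q := hk ▸ Nat.sqrt_le q
  have hk2 : q < (k + 1) * (k + 1) := hk ▸ Nat.lt_succ_sqrt q
  have hk0 : 1 ≤ k := hk ▸ Nat.sqrt_pos.2 hq
  have hsq : Real.sqrt q ≤ 2 * k := by
    rw [Real.sqrt_le_left (by positivity)]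
    have h1 : q ≤ (2 * k) ^ 2 := by nlinarith
    exact_mod_cast h1
  have hAk : ∀ A : ℤ, 1 ≤ A → 64 * A ^ 2 ≤ q → A ≤ ((2 * k : ℕ) : ℤ) := by
    intro A h1 h2
    push_cast
    by_contra hcon
    push Not at hcon
    have h3 : (q : ℤ) < (k + 1) * (k + 1) := by exact_mod_cast hk2
    have h4 : (1 : ℤ) ≤ k := by exact_mod_cast hk0
    nlinarith
  have hfin := par_finite q
  -- the set with the linear factors
  set S1 : Set (ℤ × ℤ × ℤ) := {x | Par q x.1 x.2.1 x.2.2 ∧ ∃ s : ℤ,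
    |(s : ℝ)| ≤ 3 * Real.sqrt q ∧ E1 q x.1 x.2.1 x.2.2 s} with hS1
  set S2 : Set (ℤ × ℤ × ℤ) := {x | Par q x.1 x.2.1 x.2.2 ∧ ∃ g1 f1 g0 f0 : ℤ,
    (|(g1 : ℝ)| ≤ 6 * Real.sqrt q ∧ |(f1 : ℝ)| ≤ 6 * Real.sqrt q ∧ |(g0 : ℝ)| ≤ 9 * q) ∧
    E2 q x.1 x.2.1 x.2.2 g1 f1 g0 f0} with hS2
  have c1 : S1.ncard ≤ (2 * k) * (q * (2 * (6 * k) + 1)) := by
    have h1 : ∀ x ∈ S1, ∃ s : ℤ, |(s : ℝ)| ≤ 3 * Real.sqrt q ∧ E1 q x.1 x.2.1 x.2.2 s :=
      fun x hx => hx.2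
    choose! s hs using h1
    have h2 : S1.ncard ≤ (Finset.Icc (1 : ℤ) (2 * k : ℕ) ×ˢ (Finset.Icc (1 : ℤ) q ×ˢ
        Finset.Icc (-((6 * k : ℕ) : ℤ)) (6 * k : ℕ))).card := by
      refine count_one (φ := fun x => (x.1, x.2.2, s x)) ?_ ?_
      · intro x hx
        obtain ⟨p1, p2, p3, p4, p5, p6⟩ := hx.1
        obtain ⟨h3, h4⟩ := hs x hx
        have h5 := int_bd (K := 6 * k) h3 (by push_cast; linarith)
        rw [Finset.mem_product, Finset.mem_product, Finset.mem_Icc, Finset.mem_Icc,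
          Finset.mem_Icc]
        exact ⟨⟨p1, hAk _ p1 p2⟩, ⟨p5, by change x.2.2 ≤ q; omega⟩, h5⟩
      · rintro ⟨A, n, t⟩ hx ⟨A', n', t'⟩ hx' heq
        have e1 : A = A' := congrArg (fun p : ℤ × ℤ × ℤ => p.1) heq
        have e2 : t = t' := congrArg (fun p : ℤ × ℤ × ℤ => p.2.1) heq
        have e3 : s (A, n, t) = s (A', n', t') := congrArg (fun p : ℤ × ℤ × ℤ => p.2.2) heq
        have h4 := (hs _ hx).2
        have h5 := (hs _ hx').2
        rw [← e3] at h5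
        subst e1
        subst e2
        dsimp only at h4 h5
        obtain ⟨r, hr⟩ : ∃ r, r = s (A, n, t) := ⟨_, rfl⟩
        rw [← hr] at h4 h5
        have h6 := sq_ne hq hx.1 h4
        unfold E1 at h4 h5
        have h7 : (n - n') * (r ^ 2 - 4 * q) = 0 := by linear_combination h4 - h5
        have h8 := sub_eq_zero.1 ((mul_eq_zero.1 h7).resolve_right h6)
        rw [h8]
    rw [Finset.card_product, Finset.card_product, card_pos', card_pos', card_sym] at h2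
    exact h2
  have c2 : S2.ncard ≤ 2 * ((2 * (12 * k) + 1) * ((2 * (12 * k) + 1) * (2 * (9 * q) + 1))) := by
    have h1 : ∀ x ∈ S2, ∃ g1 f1 g0 f0 : ℤ,
        (|(g1 : ℝ)| ≤ 6 * Real.sqrt q ∧ |(f1 : ℝ)| ≤ 6 * Real.sqrt q ∧ |(g0 : ℝ)| ≤ 9 * q) ∧
        E2 q x.1 x.2.1 x.2.2 g1 f1 g0 f0 := fun x hx => hx.2
    choose! g1 f1 g0 f0 hs using h1
    have h2 : S2.ncard ≤ 2 * (Finset.Icc (-((12 * k : ℕ) : ℤ)) (12 * k : ℕ) ×ˢ
        (Finset.Icc (-((12 * k : ℕ) : ℤ)) (12 * k : ℕ) ×ˢ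
        Finset.Icc (-((9 * q : ℕ) : ℤ)) (9 * q : ℕ))).card := by
      refine count_two (hfin.subset fun x hx => hx.1) (φ := fun x => (g1 x, f1 x, g0 x)) ?_ ?_
      · intro x hx
        obtain ⟨⟨h3, h4, h5⟩, -⟩ := hs x hx
        have h6 := int_bd (K := 12 * k) h3 (by push_cast; linarith)
        have h7 := int_bd (K := 12 * k) h4 (by push_cast; linarith)
        have h8 := int_bd (K := 9 * q) h5 (by push_cast; linarith)
        rw [Finset.mem_product, Finset.mem_product, Finset.mem_Icc, Finset.mem_Icc,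
          Finset.mem_Icc]
        exact ⟨h6, h7, h8⟩
      · intro x hx y hy z hz hxy hxz
        have a1 : g1 x = g1 y := congrArg (fun p : ℤ × ℤ × ℤ => p.1) hxy
        have a2 : f1 x = f1 y := congrArg (fun p : ℤ × ℤ × ℤ => p.2.1) hxy
        have a3 : g0 x = g0 y := congrArg (fun p : ℤ × ℤ × ℤ => p.2.2) hxy
        have b1 : g1 x = g1 z := congrArg (fun p : ℤ × ℤ × ℤ => p.1) hxz
        have b2 : f1 x = f1 z := congrArg (fun p : ℤ × ℤ × ℤ => p.2.1) hxz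
        have b3 : g0 x = g0 z := congrArg (fun p : ℤ × ℤ × ℤ => p.2.2) hxz
        have hx' := (hs x hx).2
        have hy' := (hs y hy).2
        have hz' := (hs z hz).2
        rw [← a1, ← a2, ← a3] at hy'
        rw [← b1, ← b2, ← b3] at hz'
        have hxA : x.1 ≠ 0 := by
          have := hx.1.1
          omega
        have hyA : y.1 ≠ 0 := by
          have := hy.1.1
          omega
        rcases three_roots hx'.quad hy'.quad hz'.quad (pow_ne_zero 2 hx'.1) with h | h | h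
        · left
          rw [← h] at hy'
          exact E2.det hxA hx' hy'
        · right
          left
          rw [← h] at hz'
          exact E2.det hxA hx' hz'
        · right
          right
          rw [← h] at hz'
          exact E2.det hyA hy' hz'
    rw [Finset.card_product, Finset.card_product, card_sym, card_sym] at h2
    exact h2
  have c3 : {x : ℤ × ℤ × ℤ | Par q x.1 x.2.1 x.2.2 ∧
      ¬ Irreducible (mkPoly 4 (cf q x.1 x.2.1 x.2.2))} ⊆ S1 ∪ S2 := by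
    rintro x ⟨hx1, hx2⟩
    rcases cases_of hq hx1 hx2 with ⟨s, h1, h2⟩ | ⟨g1, f1, g0, f0, h1, h2, h3, h4⟩
    · left
      exact ⟨hx1, s, h1, h2⟩
    · right
      exact ⟨hx1, g1, f1, g0, f0, ⟨h1, h2, h3⟩, h4⟩
  have c4 : (S1 ∪ S2).Finite := by
    refine hfin.subset ?_
    rintro x (hx | hx)
    · exact hx.1
    · exact hx.1
  have c5 : {x : ℤ × ℤ × ℤ | Par q x.1 x.2.1 x.2.2 ∧
      ¬ Irreducible (mkPoly 4 (cf q x.1 x.2.1 x.2.2))}.ncard ≤ 24000 * q ^ 2 := by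
    refine (Set.ncard_le_ncard c3 c4).trans ((Set.ncard_union_le _ _).trans ?_)
    have d1 : (2 * k) * (q * (2 * (6 * k) + 1)) ≤ 26 * q ^ 2 := by
      calc (2 * k) * (q * (2 * (6 * k) + 1)) ≤ (2 * k) * (q * (13 * k)) := by
            gcongr
            omega
        _ = 26 * (k * k) * q := by ring
        _ ≤ 26 * q * q := by gcongr
        _ = 26 * q ^ 2 := by ring
    have d2 : 2 * ((2 * (12 * k) + 1) * ((2 * (12 * k) + 1) * (2 * (9 * q) + 1))) ≤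
        23750 * q ^ 2 := by
      calc 2 * ((2 * (12 * k) + 1) * ((2 * (12 * k) + 1) * (2 * (9 * q) + 1))) ≤
            2 * ((25 * k) * ((25 * k) * (19 * q))) := by
            gcongr <;> omega
        _ = 23750 * (k * k) * q := by ring
        _ ≤ 23750 * q * q := by gcongr
        _ = 23750 * q ^ 2 := by ring
    have d3 : 0 ≤ q ^ 2 := Nat.zero_le _
    linarith
  have c6 : Real.sqrt q ^ 4 = (q : ℝ) ^ 2 := by
    rw [show (4 : ℕ) = 2 * 2 from rfl, pow_mul, Real.sq_sqrt hq'.le]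
  rw [c6]
  exact_mod_cast c5

end Pool.Agent.H721.EF
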