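import Pool.Agent.H857.EF.Core

/-!
# Galois conjugates of a quadruple (subtask EF S5a, helper721 for helper857)
-/

set_option autoImplicit false

namespace Pool.Agent.H721.EF

open Module Polynomial Pool.Agent.W521.Descent Pool.Agent.W521.Density Pool.Agent.W521.Count
  Pool.Agent.X297.UB Pool.Agent.H857.PB Pool.Agent.H857.PA Pool.Agent.H857.HK
  Pool.Agent.H857.EF

/-- roots of unity -/
def R (x : QB) : Prop := ∃ N : ℕ, 0 < N ∧ x ^ N = 1

theorem R.mul {x y : QB} (hx : R x) (hy : R y) : R (x * y) := by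
  obtain ⟨N, hN, h1⟩ := hx
  obtain ⟨M, hM, h2⟩ := hy
  refine ⟨N * M, Nat.mul_pos hN hM, ?_⟩
  rw [mul_pow, pow_mul, h1, one_pow, mul_comm N M, pow_mul, h2, one_pow, one_mul]

theorem R.inv {x : QB} (hx : R x) : R x⁻¹ := by
  obtain ⟨N, hN, h1⟩ := hx
  exact ⟨N, hN, by rw [inv_pow, h1, inv_one]⟩

theorem R.map {x : QB} (hx : R x) (σ : QB ≃ₐ[ℚ] QB) : R (σ x) := by
  obtain ⟨N, hN, h1⟩ := hx
  exact ⟨N, hN, by rw [← map_pow, h1, map_one]⟩

theorem R.pow {x : QB} (hx : R x) (k : ℕ) : R (x ^ k) := by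
  obtain ⟨N, hN, h1⟩ := hx
  exact ⟨N, hN, by rw [← pow_mul, mul_comm, pow_mul, h1, one_pow]⟩

theorem R.of_pow {x : QB} {k : ℕ} (hk : 0 < k) (hx : R (x ^ k)) : R x := by
  obtain ⟨N, hN, h1⟩ := hx
  exact ⟨k * N, Nat.mul_pos hk hN, by rw [pow_mul, h1]⟩

theorem cases4 (x : Fin 4 → QB) (h0 : ∀ i, x i ≠ 0) (h1 : ∀ i, ¬ R (x i))
    (h2 : ∀ i j, i ≠ j → ¬ R (x i * x j)) (h4 : R (∏ i, x i)) (s : Fin 4 → Prop)
    [DecidablePred s] (hs : R (∏ i, if s i then x i else 1)) : (∀ i, s i) ∨ ∀ i, ¬ s i := by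
  rw [Fin.prod_univ_four] at h4 hs
  have n0 := h0 0
  have n1 := h0 1
  have n2 := h0 2
  have n3 := h0 3
  have a0 := h1 0
  have a1 := h1 1
  have a2 := h1 2
  have a3 := h1 3
  have b01 := h2 0 1 (by decide)
  have b02 := h2 0 2 (by decide)
  have b03 := h2 0 3 (by decide)
  have b12 := h2 1 2 (by decide)
  have b13 := h2 1 3 (by decide)
  have b23 := h2 2 3 (by decide)
  have t0 : ¬ R (x 1 * x 2 * x 3) := fun h => a0 (by
    have := h4.mul h.inv
    have e : x 0 * x 1 * x 2 * x 3 * (x 1 * x 2 * x 3)⁻¹ = x 0 := by field_simp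
    rwa [e] at this)
  have t1 : ¬ R (x 0 * x 2 * x 3) := fun h => a1 (by
    have := h4.mul h.inv
    have e : x 0 * x 1 * x 2 * x 3 * (x 0 * x 2 * x 3)⁻¹ = x 1 := by field_simp
    rwa [e] at this)
  have t2 : ¬ R (x 0 * x 1 * x 3) := fun h => a2 (by
    have := h4.mul h.inv
    have e : x 0 * x 1 * x 2 * x 3 * (x 0 * x 1 * x 3)⁻¹ = x 2 := by field_simp
    rwa [e] at this)
  have t3 : ¬ R (x 0 * x 1 * x 2) := fun h => a3 (by
    have := h4.mul h.inv
    have e : x 0 * x 1 * x 2 * x 3 * (x 0 * x 1 * x 2)⁻¹ = x 3 := by field_simp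
    rwa [e] at this)
  rw [Fin.forall_fin_succ, Fin.forall_fin_succ, Fin.forall_fin_succ, Fin.forall_fin_succ]
  by_cases s0 : s 0 <;> by_cases s1 : s 1 <;> by_cases s2 : s 2 <;> by_cases s3 : s 3 <;>
    simp only [s0, s1, s2, s3, if_true, if_false, one_mul, mul_one] at hs
  all_goals first
    | exact absurd hs a0
    | exact absurd hs a1
    | exact absurd hs a2
    | exact absurd hs a3
    | exact absurd hs b01
    | exact absurd hs b02
    | exact absurd hs b03
    | exact absurd hs b12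
    | exact absurd hs b13
    | exact absurd hs b23
    | exact absurd hs t0
    | exact absurd hs t1
    | exact absurd hs t2
    | exact absurd hs t3
    | skip
  · left
    exact ⟨s0, s1, s2, s3, fun i => i.elim0⟩
  · right
    intro i
    fin_cases i
    · exact s0
    · exact s1
    · exact s2
    · exact s3

theorem s5a : S5a := by
  classical
  intro q hq β hβ hprod hpair σ hσ
  have hq0 : (q : QB) ≠ 0 := Nat.cast_ne_zero.2 hq.ne'
  -- the product relation
  have hprod' : ∃ N : ℕ, 0 < N ∧ (∏ i, β i) ^ N = ((q : QB) ^ 2) ^ N := by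
    obtain ⟨N, hN, h⟩ := hprod
    refine ⟨N, hN, ?_⟩
    apply Subtype.ext
    push_cast
    exact h
  have hβ0 : ∀ i, β i ≠ 0 := by
    intro i hi
    obtain ⟨N, hN, h⟩ := hprod'
    rw [Finset.prod_eq_zero (Finset.mem_univ i) hi, zero_pow hN.ne'] at h
    exact pow_ne_zero N (pow_ne_zero 2 hq0) h.symm
  have hR : R ((∏ i, β i) / (q : QB) ^ 2) := by
    obtain ⟨N, hN, h⟩ := hprod'
    exact ⟨N, hN, by rw [div_pow, h, div_self (pow_ne_zero N (pow_ne_zero 2 hq0))]⟩
  have hnp : ∀ i j, ¬ R (β i * β j / q) := by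
    intro i j h
    apply hpair i j
    obtain ⟨N, hN, h⟩ := h
    refine ⟨N, hN, ?_⟩
    rw [div_pow, div_eq_one_iff_eq (pow_ne_zero N hq0)] at h
    have h1 := congrArg (fun z : QB => (z : ℂ)) h
    push_cast at h1
    exact h1
  choose π hπ using hσ
  -- injectivity
  have hinj : Function.Injective π := by
    intro i i' hii
    by_contra hne
    have hcase : ∀ i i', i ≠ i' → π i = π i' → σ (β i) = β (π i) → σ (β i') = q / β (π i') →
        False := by
      intro i i' hne hii h1 h2
      have h3 : σ (β i * β i') = σ (q : QB) := by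
        rw [map_mul, h1, h2, hii, map_natCast]
        field_simp [hβ0 (π i')]
      have h4 := σ.injective h3
      apply hnp i i'
      exact ⟨1, one_pos, by rw [h4, div_self hq0, one_pow]⟩
    rcases hπ i with h1 | h1 <;> rcases hπ i' with h2 | h2
    · rw [hii, ← h2] at h1
      exact hne (hβ (σ.injective h1))
    · exact hcase i i' hne hii h1 h2
    · exact hcase i' i (Ne.symm hne) hii.symm h2 h1
    · rw [hii, ← h2] at h1
      exact hne (hβ (σ.injective h1))
  have hbij : Function.Bijective π := Finite.injective_iff_bijective.1 hinj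
  -- the relation for the conjugates
  have hσR := hR.map σ
  rw [map_div₀, map_prod, map_pow, map_natCast] at hσR
  have hβπ : ∏ i, β (π i) = ∏ i, β i := Equiv.prod_comp (Equiv.ofBijective π hbij) β
  let s : Fin 4 → Prop := fun i => σ (β i) ≠ β (π i)
  have hs : ∀ i, β (π i) / σ (β i) = if s i then β (π i) ^ 2 / q else 1 := by
    intro i
    by_cases h : σ (β i) = β (π i)
    · rw [if_neg (by simpa [s] using h), h, div_self (hβ0 _)]
    · have h1 : σ (β i) = q / β (π i) := (hπ i).resolve_left h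
      rw [if_pos (by simpa [s] using h), h1]
      field_simp
  have hmain := cases4 (fun i => β (π i) ^ 2 / q) (fun i => div_ne_zero (pow_ne_zero 2 (hβ0 _)) hq0)
    (fun i h => hnp (π i) (π i) (by rw [← sq]; exact h))
    (fun i j _ h => by
      apply hnp (π i) (π j)
      apply R.of_pow (k := 2) (by norm_num)
      have e : (β (π i) * β (π j) / (q : QB)) ^ 2 = β (π i) ^ 2 / q * (β (π j) ^ 2 / q) := by
        field_simp
      rw [e]
      exact h)
    (by
      have h1 := hR.pow 2
      have e : ((∏ i, β i) / (q : QB) ^ 2) ^ 2 = ∏ i, β (π i) ^ 2 / (q : QB) := by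
        rw [Finset.prod_div_distrib, Finset.prod_pow, hβπ, Finset.prod_const, Finset.card_univ,
          Fintype.card_fin]
        field_simp
      rw [e] at h1
      exact h1)
    s (by
      have h1 := hR.mul hσR.inv
      have e : (∏ i, β i) / (q : QB) ^ 2 * ((∏ i, σ (β i)) / (q : QB) ^ 2)⁻¹ =
          ∏ i, if s i then β (π i) ^ 2 / q else 1 := by
        rw [← Finset.prod_congr rfl fun i _ => hs i, Finset.prod_div_distrib, hβπ]
        have h2 : ∏ i, σ (β i) ≠ 0 := Finset.prod_ne_zero_iff.2 fun i _ => by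
          rw [Ne, map_eq_zero]
          exact hβ0 i
        field_simp
      rw [e] at h1
      exact h1)
  rcases hmain with h | h
  · right
    refine ⟨Equiv.ofBijective π hbij, fun i => ?_⟩
    exact (hπ i).resolve_left (h i)
  · left
    refine ⟨Equiv.ofBijective π hbij, fun i => ?_⟩
    have := h i
    simp only [s, ne_eq, not_not] at this
    exact this

end Pool.Agent.H721.EF
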